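import Pool.Agent.H586.AF.A

/-!
# Project AF, task AF-B: two heat kernels and two currents
-/

set_option autoImplicit false

open MeasureTheory Matrix Finset Filter Topology

namespace Pool.Agent.H105.AF

open Pool.Agent.H586.AF

noncomputable section

namespace BL

/-! ### finite sums -/

lemma sum_le_inj {α β : Type} [DecidableEq β] (s : Finset α) (T : Finset β) (φ : α → β)
    (F : β → ℝ) (hφ : Set.InjOn φ s) (hT : ∀ x ∈ s, φ x ∈ T) (hF : ∀ y, 0 ≤ F y) :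
    ∑ x ∈ s, F (φ x) ≤ ∑ y ∈ T, F y := by
  rw [← Finset.sum_image hφ]
  exact Finset.sum_le_sum_of_subset_of_nonneg (Finset.image_subset_iff.2 hT)
    fun y _ _ => hF y

/-- periodic functions -/
lemma per_sum (L : ℕ) (hL : 1 ≤ L) (f : ℤ → ℝ) (hf : ∀ z, f (z + 2 * L) = f z) :
    ∑ z ∈ Finset.Ico (0 : ℤ) (2 * L), f z = ∑ z ∈ Finset.Ico (-(L : ℤ)) L, f z := by
  refine Finset.sum_nbij' (fun z => if z < L then z else z - 2 * L)
    (fun z => if z < 0 then z + 2 * L else z) ?_ ?_ ?_ ?_ ?_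
  · intro z hz
    rw [Finset.mem_Ico] at hz ⊢
    split_ifs <;> omega
  · intro z hz
    rw [Finset.mem_Ico] at hz ⊢
    split_ifs <;> omega
  · intro z hz
    rw [Finset.mem_Ico] at hz
    split_ifs <;> omega
  · intro z hz
    rw [Finset.mem_Ico] at hz
    split_ifs <;> omega
  · intro z hz
    split_ifs with h
    · rfl
    · have := hf (z - 2 * L)
      rw [sub_add_cancel] at this
      exact this

/-- even functions -/
lemma sym_sum (h : ℤ → ℝ) (he : ∀ z, h (-z) = h z) (h0 : h 0 = 0) (M : ℕ) :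
    ∑ z ∈ Finset.Ioo (-((M : ℤ) + 1)) (M + 1), h z = 2 * ∑ j ∈ Finset.range M, h (j + 1) := by
  induction M with
  | zero =>
    have e : Finset.Ioo (-(((0 : ℕ) : ℤ) + 1)) (((0 : ℕ) : ℤ) + 1) = {0} := by
      ext z
      simp only [Finset.mem_Ioo, Finset.mem_singleton]
      push_cast
      omega
    rw [e]
    simp [h0]
  | succ M ih =>
    have e : Finset.Ioo (-(((M + 1 : ℕ) : ℤ) + 1)) (((M + 1 : ℕ) : ℤ) + 1) =
        insert ((M : ℤ) + 1) (insert (-((M : ℤ) + 1)) (Finset.Ioo (-((M : ℤ) + 1)) (M + 1))) := by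
      ext z
      simp only [Finset.mem_Ioo, Finset.mem_insert]
      push_cast
      omega
    rw [e, Finset.sum_insert, Finset.sum_insert, ih, Finset.sum_range_succ, he]
    · ring
    · simp only [Finset.mem_Ioo]
      omega
    · simp only [Finset.mem_Ioo, Finset.mem_insert]
      omega

/-- the differences `i - j` -/
lemma diff_sum (L n : ℕ) (hn1 : n ≤ L) (hn2 : L ≤ n + 1) (h : ℤ → ℝ) :
    |∑ i : Fin n, ∑ j : Fin n, h ((i : ℤ) - j) - L * ∑ v ∈ Finset.Ico (-(L : ℤ)) L, h v| ≤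
      ∑ v ∈ Finset.Ico (-(L : ℤ)) L, (|(v : ℝ)| + 1) * |h v| := by
  classical
  have row : ∀ i : Fin n, ∑ j : Fin n, h ((i : ℤ) - j) =
      ∑ v ∈ Finset.Ico (-(L : ℤ)) L, if 0 ≤ (i : ℤ) - v ∧ (i : ℤ) - v < n then h v else 0 := by
    intro i
    rw [← Finset.sum_filter]
    have e : (Finset.Ico (-(L : ℤ)) L).filter (fun v => 0 ≤ (i : ℤ) - v ∧ (i : ℤ) - v < n) =
        (Finset.univ : Finset (Fin n)).image (fun j : Fin n => (i : ℤ) - j) := by
      ext v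
      simp only [Finset.mem_filter, Finset.mem_Ico, Finset.mem_image, Finset.mem_univ, true_and]
      constructor
      · rintro ⟨h1, h2, h3⟩
        refine ⟨⟨((i : ℤ) - v).toNat, by omega⟩, ?_⟩
        simp only
        omega
      · rintro ⟨j, rfl⟩
        have := i.2
        have := j.2
        omega
    rw [e, Finset.sum_image]
    intro j _ j' _ hj
    simp only at hj
    apply Fin.ext
    omega
  rw [Finset.sum_congr rfl fun i _ => row i, Finset.sum_comm]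
  have col : ∀ v : ℤ, ∑ i : Fin n, (if 0 ≤ (i : ℤ) - v ∧ (i : ℤ) - v < n then h v else 0) =
      ((Finset.univ.filter fun i : Fin n => 0 ≤ (i : ℤ) - v ∧ (i : ℤ) - v < n).card : ℝ) * h v := by
    intro v
    rw [← Finset.sum_filter, Finset.sum_const, nsmul_eq_mul]
  rw [Finset.sum_congr rfl fun v _ => col v, Finset.mul_sum, ← Finset.sum_sub_distrib]
  refine (Finset.abs_sum_le_sum_abs _ _).trans (Finset.sum_le_sum fun v _ => ?_)
  rw [← sub_mul, abs_mul]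
  refine mul_le_mul_of_nonneg_right ?_ (abs_nonneg _)
  have h1 := Finset.card_filter_add_card_filter_not (s := (Finset.univ : Finset (Fin n)))
    (fun i : Fin n => 0 ≤ (i : ℤ) - v ∧ (i : ℤ) - v < n)
  have h2 : (Finset.univ.filter fun i : Fin n => ¬ (0 ≤ (i : ℤ) - v ∧ (i : ℤ) - v < n)).card ≤
      v.natAbs := by
    rw [← Finset.card_range v.natAbs]
    refine Finset.card_le_card_of_injOn (fun i : Fin n => if 0 < v then (i : ℕ) else n - 1 - i)
      ?_ ?_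
    · intro i hi
      simp only [Finset.coe_filter, Finset.mem_univ, true_and, Set.mem_ofPred_eq] at hi
      have := i.2
      simp only [Finset.coe_range, Set.mem_Iio]
      split_ifs <;> omega
    · intro i hi j hj hij
      have := i.2
      have := j.2
      simp only at hij
      apply Fin.ext
      split_ifs at hij <;> omega
  rw [Finset.card_univ, Fintype.card_fin] at h1
  have h3 : (((Finset.univ.filter fun i : Fin n => 0 ≤ (i : ℤ) - v ∧ (i : ℤ) - v < n).card : ℤ) -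
      L).natAbs ≤ v.natAbs + 1 := by omega
  have h4 : |(((Finset.univ.filter fun i : Fin n => 0 ≤ (i : ℤ) - v ∧ (i : ℤ) - v < n).card : ℤ) -
      L)| ≤ |v| + 1 := by
    rw [Int.abs_eq_natAbs, Int.abs_eq_natAbs]
    exact_mod_cast h3
  exact_mod_cast h4

/-- the sums `i + j + c` -/
lemma add_sum (L n c : ℕ) (hnc : n + c = L + 1) (hc : 1 ≤ c) (b : ℤ → ℝ) (hb : ∀ z, 0 ≤ b z)
    (hper : ∀ z, b (z + 2 * L) = b z) :
    ∑ i : Fin n, ∑ j : Fin n, b ((i : ℤ) + j + c) ≤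
      ∑ w ∈ Finset.Ico (-(L : ℤ)) L, |(w : ℝ)| * b w := by
  classical
  rw [← Finset.sum_product' (s := (Finset.univ : Finset (Fin n)))
    (t := (Finset.univ : Finset (Fin n))) (f := fun i j => b ((i : ℤ) + j + c))]
  obtain ⟨ψ, hψ⟩ : ∃ ψ : Fin n × Fin n → ℤ, ψ = fun p =>
    if (p.1 : ℤ) + p.2 + c < L then (p.1 : ℤ) + p.2 + c else (p.1 : ℤ) + p.2 + c - 2 * L := ⟨_, rfl⟩
  have e1 : ∀ p : Fin n × Fin n, b ((p.1 : ℤ) + p.2 + c) = b (ψ p) := by
    intro p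
    rw [hψ]
    simp only
    split_ifs with h
    · rfl
    · have := hper ((p.1 : ℤ) + p.2 + c - 2 * L)
      rw [sub_add_cancel] at this
      exact this
  rw [Finset.sum_congr rfl fun p _ => e1 p]
  rw [← Finset.sum_fiberwise_of_maps_to (t := Finset.Ico (-(L : ℤ)) L) (g := ψ) (by
    intro p _
    rw [hψ, Finset.mem_Ico]
    have := p.1.2
    have := p.2.2
    simp only
    split_ifs <;> omega)]
  refine Finset.sum_le_sum fun w hw => ?_
  rw [Finset.mem_Ico] at hw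
  have e2 : ∑ p ∈ (Finset.univ ×ˢ Finset.univ : Finset (Fin n × Fin n)).filter
      (fun p => ψ p = w), b (ψ p) =
      (((Finset.univ ×ˢ Finset.univ : Finset (Fin n × Fin n)).filter
        (fun p => ψ p = w)).card : ℝ) * b w := by
    rw [Finset.sum_congr rfl (g := fun _ => b w) (fun p hp => by
      rw [(Finset.mem_filter.1 hp).2]), Finset.sum_const, nsmul_eq_mul]
  rw [e2]
  refine mul_le_mul_of_nonneg_right ?_ (hb w)
  have h2 : ((Finset.univ ×ˢ Finset.univ : Finset (Fin n × Fin n)).filter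
        (fun p => ψ p = w)).card ≤ w.natAbs := by
    rw [← Finset.card_range w.natAbs]
    refine Finset.card_le_card_of_injOn
      (fun p : Fin n × Fin n => if 0 ≤ w then (p.1 : ℕ) else L - 1 - p.1) ?_ ?_
    · intro p hp
      have hp2 := (Finset.mem_filter.1 (Finset.mem_coe.1 hp)).2
      rw [hψ] at hp2
      simp only at hp2
      have := p.1.2
      have := p.2.2
      simp only [Finset.coe_range, Set.mem_Iio]
      split_ifs at hp2 ⊢ <;> omega
    · intro p hp q hq hpq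
      have hp2 := (Finset.mem_filter.1 (Finset.mem_coe.1 hp)).2
      have hq2 := (Finset.mem_filter.1 (Finset.mem_coe.1 hq)).2
      rw [hψ] at hp2 hq2
      simp only at hp2 hq2 hpq
      have := p.1.2
      have := p.2.2
      have := q.1.2
      have := q.2.2
      have h3 : (p.1 : ℕ) = q.1 := by split_ifs at hpq <;> omega
      have h4 : (p.2 : ℕ) = q.2 := by split_ifs at hp2 hq2 <;> omega
      exact Prod.ext (Fin.ext h3) (Fin.ext h4)
  have h3 : (((Finset.univ ×ˢ Finset.univ : Finset (Fin n × Fin n)).filter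
        (fun p => ψ p = w)).card : ℤ) ≤ |w| := by
    rw [Int.abs_eq_natAbs]
    exact_mod_cast h2
  exact_mod_cast h3

/-- the mixed sums -/
lemma mix_sum (L n c : ℕ) (hn : n ≤ L) (hc : 2 * n + c ≤ 2 * L + 1) (a b : ℤ → ℝ)
    (ha : ∀ z, 0 ≤ a z) (hb : ∀ z, 0 ≤ b z) :
    ∑ i : Fin n, ∑ j : Fin n, a ((i : ℤ) - j) * b ((i : ℤ) + j + c) ≤
      (∑ z ∈ Finset.Ico (-(L : ℤ)) L, a z) * ∑ z ∈ Finset.Ico (0 : ℤ) (2 * L), b z := by
  classical
  rw [← Finset.sum_product' (s := (Finset.univ : Finset (Fin n)))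
    (t := (Finset.univ : Finset (Fin n))) (f := fun i j => a ((i : ℤ) - j) * b ((i : ℤ) + j + c))]
  rw [Finset.sum_mul_sum, ← Finset.sum_product' (f := fun x y => a x * b y)]
  refine sum_le_inj (F := fun q : ℤ × ℤ => a q.1 * b q.2)
    (φ := fun p : Fin n × Fin n => ((p.1 : ℤ) - p.2, (p.1 : ℤ) + p.2 + c)) _ _ ?_ ?_ ?_
  · intro p _ q _ hpq
    simp only [Prod.mk.injEq] at hpq
    have h3 : (p.1 : ℕ) = q.1 := by omega
    have h4 : (p.2 : ℕ) = q.2 := by omega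
    exact Prod.ext (Fin.ext h3) (Fin.ext h4)
  · intro p _
    have := p.1.2
    have := p.2.2
    simp only [Finset.mem_product, Finset.mem_Ico]
    omega
  · intro q
    exact mul_nonneg (ha _) (hb _)

/-- the gradient -/
def dd (L : ℕ) (t : ℝ) (z : ℤ) : ℝ := rr L t (z + 1) - rr L t (z - 1)

lemma rr_neg (L : ℕ) (t : ℝ) (z : ℤ) : rr L t (-z) = rr L t z := by
  unfold rr
  congr 1
  refine Finset.sum_congr rfl fun n _ => ?_
  push_cast
  rw [mul_neg, Real.cos_neg]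

lemma rr_per (L : ℕ) (hL : 1 ≤ L) (t : ℝ) (z : ℤ) : rr L t (z + 2 * L) = rr L t z := by
  have hL0 : (L : ℝ) ≠ 0 := by positivity
  unfold rr
  congr 1
  refine Finset.sum_congr rfl fun n _ => ?_
  have e : Real.pi * n / L * ((z + 2 * L : ℤ) : ℝ) = Real.pi * n / L * z + n * (2 * Real.pi) := by
    push_cast
    field_simp
  rw [e, Real.cos_add_nat_mul_two_pi]

lemma dd_neg (L : ℕ) (t : ℝ) (z : ℤ) : dd L t (-z) = -dd L t z := by
  unfold dd
  have e1 : -z + 1 = -(z - 1) := by ring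
  have e2 : -z - 1 = -(z + 1) := by ring
  rw [e1, e2, rr_neg, rr_neg]
  ring

lemma dd_per (L : ℕ) (hL : 1 ≤ L) (t : ℝ) (z : ℤ) : dd L t (z + 2 * L) = dd L t z := by
  unfold dd
  have e1 : z + 2 * L + 1 = (z + 1) + 2 * L := by ring
  have e2 : z + 2 * L - 1 = (z - 1) + 2 * L := by ring
  rw [e1, e2, rr_per L hL, rr_per L hL]

lemma dd_zero (L : ℕ) (t : ℝ) : dd L t 0 = 0 := by
  have h := dd_neg L t 0
  rw [neg_zero] at h
  linarith

lemma dd_L (L : ℕ) (hL : 1 ≤ L) (t : ℝ) : dd L t (-(L : ℤ)) = 0 := by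
  have h1 := dd_neg L t L
  have h2 := dd_per L hL t (-(L : ℤ))
  have e : -(L : ℤ) + 2 * L = L := by ring
  rw [e] at h2
  linarith

/-! ### the supremum -/

lemma shift_sum (L : ℕ) (g : ℤ → ℝ) (hg : ∀ z, g (z + 2 * L) = g z) (a : ℤ) :
    ∑ m ∈ Finset.range (2 * L), g (a + m) = ∑ z ∈ Finset.Ico (0 : ℤ) (2 * L), g z := by
  have step : ∀ a : ℤ, ∑ m ∈ Finset.range (2 * L), g (a + 1 + m) =
      ∑ m ∈ Finset.range (2 * L), g (a + m) := by
    intro a
    have h1 := Finset.sum_range_succ' (fun m : ℕ => g (a + m)) (2 * L)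
    have h2 := Finset.sum_range_succ (fun m : ℕ => g (a + m)) (2 * L)
    have h3 : g (a + ((2 * L : ℕ) : ℤ)) = g (a + ((0 : ℕ) : ℤ)) := by
      push_cast
      rw [hg, add_zero]
    have h4 : ∑ m ∈ Finset.range (2 * L), g (a + 1 + m) =
        ∑ m ∈ Finset.range (2 * L), g (a + ((m + 1 : ℕ) : ℤ)) := by
      refine Finset.sum_congr rfl fun m _ => ?_
      congr 1
      push_cast
      ring
    rw [h4]
    linarith
  have h0 : ∑ m ∈ Finset.range (2 * L), g ((0 : ℤ) + m) =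
      ∑ z ∈ Finset.Ico (0 : ℤ) (2 * L), g z := by
    refine Finset.sum_nbij' (fun m : ℕ => (m : ℤ)) (fun z : ℤ => z.toNat) ?_ ?_ ?_ ?_ ?_
    · intro m hm
      rw [Finset.mem_range] at hm
      rw [Finset.mem_Ico]
      omega
    · intro z hz
      rw [Finset.mem_Ico] at hz
      rw [Finset.mem_range]
      omega
    · intro m _
      simp
    · intro z hz
      rw [Finset.mem_Ico] at hz
      omega
    · intro m _
      rw [zero_add]
  rw [← h0]
  induction a using Int.induction_on with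
  | zero => rfl
  | succ n ih => rw [step, ih]
  | pred n ih =>
    rw [← ih, ← step]
    congr 1
    funext m
    congr 2
    ring

lemma even_le (g : ℤ → ℝ) (hg : ∀ z, 0 ≤ g z) (a : ℤ) (n : ℕ) :
    ∑ k ∈ Finset.range n, g (a + 2 * k) ≤ ∑ m ∈ Finset.range (2 * n), g (a + m) := by
  induction n with
  | zero => simp
  | succ n ih =>
    have e : 2 * (n + 1) = 2 * n + 1 + 1 := by ring
    rw [Finset.sum_range_succ, e, Finset.sum_range_succ, Finset.sum_range_succ]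
    have h1 := hg (a + ((2 * n + 1 : ℕ) : ℤ))
    have h2 : g (a + ((2 * n : ℕ) : ℤ)) = g (a + 2 * n) := by
      push_cast
      rfl
    linarith

/-- the supremum of the kernel -/
lemma rr_le (L : ℕ) (hL : 2 ≤ L) (t : ℝ) (hpos : ∀ z, 0 ≤ rr L t z)
    (hone : ∑ z ∈ Finset.Ico (-(L : ℤ)) L, rr L t z = 1) (z : ℤ) :
    rr L t z ≤ 1 / L + ∑ v ∈ Finset.Ico (-(L : ℤ)) L, |dd L t v| := by
  obtain ⟨D, hD⟩ : ∃ D : ℝ, D = ∑ v ∈ Finset.Ico (-(L : ℤ)) L, |dd L t v| := ⟨_, rfl⟩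
  have hL1 : 1 ≤ L := by omega
  have hL0 : (0 : ℝ) < L := by positivity
  have hp1 : ∀ z, (fun z => |dd L t z|) (z + 2 * L) = (fun z => |dd L t z|) z := by
    intro z
    simp only
    rw [dd_per L hL1]
  have hvar : ∀ k : ℕ, rr L t z - rr L t (z + 2 * k) ≤
      ∑ j ∈ Finset.range k, |dd L t (z + 1 + 2 * j)| := by
    intro k
    induction k with
    | zero => simp
    | succ k ih =>
      rw [Finset.sum_range_succ]
      have e : dd L t (z + 1 + 2 * k) = rr L t (z + 2 * ((k + 1 : ℕ) : ℤ)) - rr L t (z + 2 * k) := by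
        unfold dd
        congr 2
        · push_cast
          ring
        · ring
      have h1 := neg_abs_le (dd L t (z + 1 + 2 * k))
      linarith
  have hle : ∀ k, k < L → rr L t z - rr L t (z + 2 * k) ≤ D := by
    intro k hk
    refine (hvar k).trans ?_
    refine (even_le (fun z => |dd L t z|) (fun z => abs_nonneg _) (z + 1) k).trans ?_
    have h1 : ∑ m ∈ Finset.range (2 * k), |dd L t (z + 1 + m)| ≤
        ∑ m ∈ Finset.range (2 * L), |dd L t (z + 1 + m)| :=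
      Finset.sum_le_sum_of_subset_of_nonneg (Finset.range_subset_range.2 (by omega))
        fun _ _ _ => abs_nonneg _
    refine h1.trans (le_of_eq ?_)
    rw [hD, ← per_sum L hL1 _ hp1]
    exact shift_sum L (fun z => |dd L t z|) hp1 (z + 1)
  have hsum : ∑ k ∈ Finset.range L, rr L t (z + 2 * k) ≤ 1 := by
    refine (even_le (fun z => rr L t z) hpos z L).trans (le_of_eq ?_)
    rw [← hone, ← per_sum L hL1 _ (rr_per L hL1 t)]
    exact shift_sum L (fun z => rr L t z) (rr_per L hL1 t) z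
  have h3 : ∑ k ∈ Finset.range L, (rr L t z - D) ≤ ∑ k ∈ Finset.range L, rr L t (z + 2 * k) :=
    Finset.sum_le_sum fun k hk => by
      have := hle k (Finset.mem_range.1 hk)
      linarith
  rw [Finset.sum_const, Finset.card_range, nsmul_eq_mul] at h3
  have h4 : rr L t z - D ≤ 1 / L := by
    rw [le_div_iff₀ hL0]
    linarith
  rw [← hD]
  linarith

/-! ### Riemann sums -/

lemma riem (F V : ℝ → ℝ) (L : ℕ) (hL : 1 ≤ L) (hF : Continuous F)
    (hV : ∀ x y, 0 ≤ x → x ≤ y → y ≤ Real.pi → |F y - F x| ≤ V y - V x) :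
    |∑ n ∈ Finset.range L, F (Real.pi * n / L) - L * (1 / Real.pi * ∫ x in (0 : ℝ)..Real.pi, F x)| ≤
      V Real.pi - V 0 := by
  have hL0 : (0 : ℝ) < L := by positivity
  have hpi := Real.pi_pos
  obtain ⟨a, ha⟩ : ∃ a : ℕ → ℝ, a = fun n : ℕ => Real.pi * n / L := ⟨_, rfl⟩
  have ha0 : a 0 = 0 := by rw [ha]; simp
  have haL : a L = Real.pi := by rw [ha]; field_simp
  have hstep : ∀ n, a (n + 1) - a n = Real.pi / L := by
    intro n
    rw [ha]
    simp only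
    push_cast
    ring
  have hint := intervalIntegral.sum_integral_adjacent_intervals (f := F) (μ := volume) (a := a)
    (n := L) (fun k _ => hF.intervalIntegrable _ _)
  rw [ha0, haL] at hint
  rw [← hint]
  have e1 : ∑ n ∈ Finset.range L, F (Real.pi * n / L) -
      L * (1 / Real.pi * ∑ k ∈ Finset.range L, ∫ x in a k..a (k + 1), F x) =
      ∑ k ∈ Finset.range L, (F (a k) - L / Real.pi * ∫ x in a k..a (k + 1), F x) := by
    rw [Finset.sum_sub_distrib, ← Finset.mul_sum, ha]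
    ring
  rw [e1]
  have h2 : ∀ k ∈ Finset.range L, |F (a k) - L / Real.pi * ∫ x in a k..a (k + 1), F x| ≤
      V (a (k + 1)) - V (a k) := by
    intro k hk
    rw [Finset.mem_range] at hk
    have hk0 : 0 ≤ a k := by rw [ha]; positivity
    have hk1 : a k ≤ a (k + 1) := by
      have := hstep k
      have : 0 < Real.pi / L := by positivity
      linarith
    have hk2 : a (k + 1) ≤ Real.pi := by
      rw [ha]
      simp only
      rw [div_le_iff₀ hL0]
      have : ((k + 1 : ℕ) : ℝ) ≤ L := by exact_mod_cast hk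
      exact mul_le_mul_of_nonneg_left this hpi.le
    have e2 : F (a k) - L / Real.pi * ∫ x in a k..a (k + 1), F x =
        L / Real.pi * ∫ x in a k..a (k + 1), (F (a k) - F x) := by
      rw [intervalIntegral.integral_sub (by simp) (hF.intervalIntegrable _ _),
        intervalIntegral.integral_const, hstep, smul_eq_mul, mul_sub]
      congr 1
      field_simp
    have h3 : ‖∫ x in a k..a (k + 1), (F (a k) - F x)‖ ≤
        (V (a (k + 1)) - V (a k)) * |a (k + 1) - a k| := by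
      refine intervalIntegral.norm_integral_le_of_norm_le_const fun x hx => ?_
      rw [Set.uIoc_of_le hk1] at hx
      have h4 := hV (a k) x hk0 hx.1.le (hx.2.trans hk2)
      have h5 := hV x (a (k + 1)) (hk0.trans hx.1.le) hx.2 hk2
      have h6 := abs_nonneg (F (a (k + 1)) - F x)
      rw [Real.norm_eq_abs, abs_sub_comm]
      linarith
    rw [e2, abs_mul, abs_of_pos (show 0 < (L : ℝ) / Real.pi by positivity)]
    rw [Real.norm_eq_abs, hstep, abs_of_pos (show 0 < Real.pi / (L : ℝ) by positivity)] at h3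
    calc (L : ℝ) / Real.pi * |∫ x in a k..a (k + 1), (F (a k) - F x)| ≤
        L / Real.pi * ((V (a (k + 1)) - V (a k)) * (Real.pi / L)) :=
          mul_le_mul_of_nonneg_left h3 (by positivity)
      _ = _ := by field_simp
  refine (Finset.abs_sum_le_sum_abs _ _).trans ((Finset.sum_le_sum h2).trans (le_of_eq ?_))
  rw [Finset.sum_range_sub (fun i => V (a i)), ha0, haL]

lemma mono_diff {h H h' H' : ℝ → ℝ} (hh : ∀ y, HasDerivAt h (h' y) y)
    (hH : ∀ y, HasDerivAt H (H' y) y) (hb : ∀ y, 0 ≤ y → y ≤ 4 → |h' y| ≤ H' y) {a b : ℝ}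
    (ha : 0 ≤ a) (hab : a ≤ b) (hb4 : b ≤ 4) : |h b - h a| ≤ H b - H a := by
  have m1 : MonotoneOn (fun y => H y - h y) (Set.Icc 0 4) := by
    refine monotoneOn_of_deriv_nonneg (convex_Icc 0 4)
      (fun y _ => ((hH y).sub (hh y)).continuousAt.continuousWithinAt)
      (fun y _ => ((hH y).sub (hh y)).differentiableAt.differentiableWithinAt) fun y hy => ?_
    rw [interior_Icc] at hy
    have e : deriv (fun y => H y - h y) y = H' y - h' y := ((hH y).sub (hh y)).deriv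
    rw [e]
    have := hb y hy.1.le hy.2.le
    have := le_abs_self (h' y)
    linarith
  have m2 : MonotoneOn (fun y => H y + h y) (Set.Icc 0 4) := by
    refine monotoneOn_of_deriv_nonneg (convex_Icc 0 4)
      (fun y _ => ((hH y).add (hh y)).continuousAt.continuousWithinAt)
      (fun y _ => ((hH y).add (hh y)).differentiableAt.differentiableWithinAt) fun y hy => ?_
    rw [interior_Icc] at hy
    have e : deriv (fun y => H y + h y) y = H' y + h' y := ((hH y).add (hh y)).deriv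
    rw [e]
    have := hb y hy.1.le hy.2.le
    have := neg_abs_le (h' y)
    linarith
  have h1 := m1 (Set.mem_Icc.2 ⟨ha, hab.trans hb4⟩) (Set.mem_Icc.2 ⟨ha.trans hab, hb4⟩) hab
  have h2 := m2 (Set.mem_Icc.2 ⟨ha, hab.trans hb4⟩) (Set.mem_Icc.2 ⟨ha.trans hab, hb4⟩) hab
  simp only at h1 h2
  rw [abs_le]
  constructor <;> linarith

/-- the integrand of `ww` -/
def FF (τ x : ℝ) : ℝ := 4 * Real.sin x ^ 2 * Real.exp (-τ * ek x)

lemma FF_cont (τ : ℝ) : Continuous (FF τ) := by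
  unfold FF ek
  fun_prop

lemma ek_mono {x y : ℝ} (hx : 0 ≤ x) (hxy : x ≤ y) (hy : y ≤ Real.pi) :
    0 ≤ ek x ∧ ek x ≤ ek y ∧ ek y ≤ 4 := by
  unfold ek
  have h1 := Real.cos_le_one x
  have h2 := Real.cos_le_cos_of_nonneg_of_le_pi hx hy hxy
  have h3 := Real.neg_one_le_cos y
  refine ⟨?_, ?_, ?_⟩ <;> linarith

lemma FF_eq (τ x : ℝ) : FF τ x = (4 * ek x - ek x ^ 2) * Real.exp (-τ * ek x) := by
  unfold FF ek
  have h := Real.sin_sq_add_cos_sq x
  congr 1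
  nlinarith

lemma hasD (τ y : ℝ) : HasDerivAt (fun y => (4 * y - y ^ 2) * Real.exp (-τ * y))
    ((4 - 2 * y - τ * (4 * y - y ^ 2)) * Real.exp (-τ * y)) y := by
  have h1 : HasDerivAt (fun y : ℝ => 4 * y - y ^ 2) (4 * 1 - 2 * y) y := by
    have a := (hasDerivAt_id y).const_mul (4 : ℝ)
    have b := hasDerivAt_pow 2 y
    have c := a.sub b
    refine c.congr_deriv ?_
    norm_num
  have h2 : HasDerivAt (fun y : ℝ => Real.exp (-τ * y)) (Real.exp (-τ * y) * (-τ * 1)) y :=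
    ((hasDerivAt_id y).const_mul (-τ)).exp
  refine (h1.mul h2).congr_deriv ?_
  ring

/-- the variation -/
lemma FF_var (τ : ℝ) (hτ : 0 ≤ τ) : ∃ V : ℝ → ℝ,
    (∀ x y, 0 ≤ x → x ≤ y → y ≤ Real.pi → |FF τ y - FF τ x| ≤ V y - V x) ∧
    V Real.pi - V 0 ≤ 64 / (1 + τ) := by
  have epi : ek Real.pi = 4 := by unfold ek; rw [Real.cos_pi]; norm_num
  have e0 : ek 0 = 0 := by unfold ek; rw [Real.cos_zero]; norm_num
  rcases le_or_gt τ 1 with h1 | h1
  · refine ⟨fun x => 8 * ek x, fun x y hx hxy hy => ?_, ?_⟩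
    · obtain ⟨a1, a2, a3⟩ := ek_mono hx hxy hy
      rw [FF_eq, FF_eq]
      refine mono_diff (hasD τ) (H := fun y => 8 * y) (H' := fun _ => 8 * 1)
        (fun y => (hasDerivAt_id y).const_mul 8) (fun y hy0 hy4 => ?_) a1 a2 a3
      have b1 : Real.exp (-τ * y) ≤ 1 := Real.exp_le_one_iff.2 (by nlinarith)
      have b2 := Real.exp_pos (-τ * y)
      have b3 : τ * y * Real.exp (-τ * y) ≤ 1 := by
        have c1 := Real.add_one_le_exp (τ * y)
        have c2 : Real.exp (τ * y) * Real.exp (-τ * y) = 1 := by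
          rw [← Real.exp_add]
          simp
        have c3 : τ * y ≤ Real.exp (τ * y) := by linarith
        calc τ * y * Real.exp (-τ * y) ≤ Real.exp (τ * y) * Real.exp (-τ * y) :=
              mul_le_mul_of_nonneg_right c3 b2.le
          _ = 1 := c2
      have b4 : |4 - 2 * y - τ * (4 * y - y ^ 2)| ≤ 4 + 4 * (τ * y) := by
        have c1 : 0 ≤ τ * (4 * y - y ^ 2) := mul_nonneg hτ (by nlinarith)
        have c2 : τ * (4 * y - y ^ 2) ≤ 4 * (τ * y) := by nlinarith [mul_nonneg hτ (sq_nonneg y)]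
        rw [abs_le]
        constructor <;> linarith
      rw [abs_mul, abs_of_pos b2]
      calc |4 - 2 * y - τ * (4 * y - y ^ 2)| * Real.exp (-τ * y) ≤
          (4 + 4 * (τ * y)) * Real.exp (-τ * y) := mul_le_mul_of_nonneg_right b4 b2.le
        _ = 4 * Real.exp (-τ * y) + 4 * (τ * y * Real.exp (-τ * y)) := by ring
        _ ≤ 8 * 1 := by linarith
    · simp only
      rw [epi, e0, le_div_iff₀ (by linarith)]
      linarith
  · refine ⟨fun x => -(8 / τ + 4 * ek x) * Real.exp (-τ * ek x), fun x y hx hxy hy => ?_, ?_⟩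
    · obtain ⟨a1, a2, a3⟩ := ek_mono hx hxy hy
      rw [FF_eq, FF_eq]
      have hτ0 : 0 < τ := by linarith
      refine mono_diff (hasD τ) (H := fun y => -(8 / τ + 4 * y) * Real.exp (-τ * y))
        (H' := fun y => (4 + 4 * (τ * y)) * Real.exp (-τ * y))
        (fun y => ?_) (fun y hy0 hy4 => ?_) a1 a2 a3
      · have h2 : HasDerivAt (fun y : ℝ => Real.exp (-τ * y)) (Real.exp (-τ * y) * (-τ * 1)) y :=
          ((hasDerivAt_id y).const_mul (-τ)).exp
        have h3 : HasDerivAt (fun y : ℝ => -(8 / τ + 4 * y)) (-(4 * 1)) y :=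
          (((hasDerivAt_id y).const_mul (4 : ℝ)).const_add (8 / τ)).neg
        refine (h3.mul h2).congr_deriv ?_
        field_simp
        ring
      · have b2 := Real.exp_pos (-τ * y)
        have b4 : |4 - 2 * y - τ * (4 * y - y ^ 2)| ≤ 4 + 4 * (τ * y) := by
          have c1 : 0 ≤ τ * (4 * y - y ^ 2) := mul_nonneg hτ (by nlinarith)
          have c2 : τ * (4 * y - y ^ 2) ≤ 4 * (τ * y) := by nlinarith [mul_nonneg hτ (sq_nonneg y)]
          rw [abs_le]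
          constructor <;> linarith
        rw [abs_mul, abs_of_pos b2]
        exact mul_le_mul_of_nonneg_right b4 b2.le
    · simp only
      rw [epi, e0, mul_zero, mul_zero, add_zero, Real.exp_zero, mul_one]
      have hτ0 : 0 < τ := by linarith
      have b1 : -(8 / τ + 4 * 4) * Real.exp (-τ * 4) ≤ 0 := by
        have := Real.exp_pos (-τ * 4)
        have : 0 ≤ (8 / τ + 4 * 4) * Real.exp (-τ * 4) := by positivity
        linarith
      have b2 : 8 / τ ≤ 64 / (1 + τ) := by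
        rw [div_le_div_iff₀ hτ0 (by linarith)]
        linarith
      linarith

/-- folding -/
lemma fold (F : ℝ → ℝ) (hF : ∀ x, F (2 * Real.pi - x) = F x) (h0 : F 0 = 0) (hpi : F Real.pi = 0)
    (L : ℕ) (hL : 1 ≤ L) :
    ∑ n ∈ Finset.range (2 * L), F (Real.pi * n / L) = 2 * ∑ n ∈ Finset.range L, F (Real.pi * n / L) := by
  have hL0 : (L : ℝ) ≠ 0 := by positivity
  rw [two_mul L, Finset.sum_range_add]
  have e1 : ∑ m ∈ Finset.range L, F (Real.pi * ((L + m : ℕ) : ℝ) / L) =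
      ∑ m ∈ Finset.range L, F (Real.pi * m / L) := by
    obtain ⟨f, hf⟩ : ∃ f : ℕ → ℝ, f = fun j : ℕ => F (Real.pi * ((j + 1 : ℕ) : ℝ) / L) := ⟨_, rfl⟩
    have h1 : ∀ m ∈ Finset.range L, F (Real.pi * ((L + m : ℕ) : ℝ) / L) = f (L - 1 - m) := by
      intro m hm
      rw [Finset.mem_range] at hm
      rw [hf, ← hF]
      simp only
      congr 1
      have : ((L - 1 - m + 1 : ℕ) : ℝ) = L - m := by
        have : L - 1 - m + 1 = L - m := by omega
        rw [this, Nat.cast_sub hm.le]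
      rw [this]
      push_cast
      field_simp
      ring
    rw [Finset.sum_congr rfl h1, Finset.sum_range_reflect, hf]
    have h2 := Finset.sum_range_succ' (fun m : ℕ => F (Real.pi * m / L)) L
    have h3 := Finset.sum_range_succ (fun m : ℕ => F (Real.pi * m / L)) L
    have h4 : F (Real.pi * ((L : ℕ) : ℝ) / L) = 0 := by
      rw [mul_div_assoc, div_self hL0, mul_one, hpi]
    have h5 : F (Real.pi * ((0 : ℕ) : ℝ) / L) = 0 := by
      simp [h0]
    rw [h4] at h3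
    rw [h5] at h2
    linarith
  rw [e1]
  ring

lemma hk_add {n : ℕ} (A : Matrix (Fin n) (Fin n) ℝ) (t s : ℝ) : hk A (t + s) = hk A t * hk A s := by
  unfold hk
  have e : (-(t + s)) • A = (-t) • A + (-s) • A := by
    rw [← add_smul]
    congr 1
    ring
  rw [e, Matrix.exp_add_of_commute]
  exact (Commute.refl A).smul_left _ |>.smul_right _

/-- the main term -/
lemma main_sum (hR : S_R) (L : ℕ) (hL : 2 ≤ L) (t s : ℝ) :
    L * ∑ z ∈ Finset.Ico (-(L : ℤ)) L, dd L t z * dd L s z =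
      ∑ n ∈ Finset.range L, FF (t + s) (Real.pi * n / L) := by
  have hL0 : (L : ℝ) ≠ 0 := by positivity
  have hL1 : 1 ≤ L := by omega
  obtain ⟨M, rfl⟩ : ∃ M, L = M + 1 := ⟨L - 1, by omega⟩
  -- the sum over the period
  have e1 : ∑ z ∈ Finset.Ico (-((M + 1 : ℕ) : ℤ)) ((M + 1 : ℕ) : ℤ), dd (M + 1) t z * dd (M + 1) s z =
      2 * ∑ j ∈ Finset.range M, dd (M + 1) t (j + 1) * dd (M + 1) s (j + 1) := by
    rw [← sym_sum (fun z => dd (M + 1) t z * dd (M + 1) s z) (fun z => by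
      rw [dd_neg, dd_neg]
      ring) (by rw [dd_zero]; ring) M]
    have e : Finset.Ico (-((M + 1 : ℕ) : ℤ)) ((M + 1 : ℕ) : ℤ) =
        insert (-((M + 1 : ℕ) : ℤ)) (Finset.Ioo (-((M : ℤ) + 1)) (M + 1)) := by
      ext z
      simp only [Finset.mem_Ico, Finset.mem_insert, Finset.mem_Ioo]
      push_cast
      omega
    rw [e, Finset.sum_insert, dd_L (M + 1) hL1, zero_mul, zero_add]
    simp only [Finset.mem_Ioo]
    push_cast
    omega
  -- the semigroup property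
  have hM : 0 < M + 1 - 1 := by omega
  have e2 := congrFun (congrFun (hk_add (lDD (M + 1)) t s) ⟨0, hM⟩) ⟨0, hM⟩
  rw [Matrix.mul_apply, (hR (M + 1) hL (t + s)).1] at e2
  have e3 : ∑ j : Fin (M + 1 - 1), hk (lDD (M + 1)) t ⟨0, hM⟩ j * hk (lDD (M + 1)) s j ⟨0, hM⟩ =
      ∑ j : Fin (M + 1 - 1), dd (M + 1) t ((j : ℕ) + 1) * dd (M + 1) s ((j : ℕ) + 1) := by
    refine Finset.sum_congr rfl fun j _ => ?_
    rw [(hR (M + 1) hL t).1, (hR (M + 1) hL s).1]
    unfold dd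
    have a1 : ((((⟨0, hM⟩ : Fin (M + 1 - 1)) : ℕ) : ℤ) - ((j : ℕ) : ℤ)) = -(((j : ℕ) : ℤ) + 1 - 1) := by
      simp
    have a2 : ((((⟨0, hM⟩ : Fin (M + 1 - 1)) : ℕ) : ℤ) + ((j : ℕ) : ℤ) + 2) =
        (((j : ℕ) : ℤ) + 1 + 1) := by
      simp
      ring
    have a3 : (((j : ℕ) : ℤ) - (((⟨0, hM⟩ : Fin (M + 1 - 1)) : ℕ) : ℤ)) = (((j : ℕ) : ℤ) + 1 - 1) := by
      simp
    have a4 : (((j : ℕ) : ℤ) + (((⟨0, hM⟩ : Fin (M + 1 - 1)) : ℕ) : ℤ) + 2) =
        (((j : ℕ) : ℤ) + 1 + 1) := by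
      simp
      ring
    rw [a1, a2, a3, a4, rr_neg]
    ring
  have e4 : ∑ j : Fin (M + 1 - 1), dd (M + 1) t ((j : ℕ) + 1) * dd (M + 1) s ((j : ℕ) + 1) =
      ∑ j ∈ Finset.range M, dd (M + 1) t (j + 1) * dd (M + 1) s (j + 1) := by
    rw [Nat.add_sub_cancel] at *
    exact Fin.sum_univ_eq_sum_range (fun j : ℕ => dd (M + 1) t (j + 1) * dd (M + 1) s (j + 1)) M
  rw [e3, e4] at e2
  rw [e1, ← e2]
  have e5 := fold (FF (t + s)) (fun x => by
    unfold FF ek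
    rw [Real.sin_two_pi_sub, Real.cos_two_pi_sub]
    ring) (by unfold FF; simp) (by unfold FF; simp) (M + 1) hL1
  have e6 : rr (M + 1) (t + s) 0 - rr (M + 1) (t + s) 2 =
      1 / (2 * ((M + 1 : ℕ) : ℝ)) * (1 / 2 * ∑ n ∈ Finset.range (2 * (M + 1)),
        FF (t + s) (Real.pi * n / ((M + 1 : ℕ) : ℝ))) := by
    unfold rr
    rw [← mul_sub, ← Finset.sum_sub_distrib, Finset.mul_sum (s := Finset.range (2 * (M + 1)))
      (a := (1 / 2 : ℝ))]
    congr 1
    refine Finset.sum_congr rfl fun n _ => ?_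
    unfold FF
    have b1 : Real.pi * n / ((M + 1 : ℕ) : ℝ) * ((0 : ℤ) : ℝ) = 0 := by simp
    have b2 : Real.pi * n / ((M + 1 : ℕ) : ℝ) * ((2 : ℤ) : ℝ) =
        2 * (Real.pi * n / ((M + 1 : ℕ) : ℝ)) := by
      push_cast
      ring
    rw [b1, b2, Real.cos_zero, Real.cos_two_mul]
    have b3 := Real.sin_sq_add_cos_sq (Real.pi * n / ((M + 1 : ℕ) : ℝ))
    have b4 : Real.cos (Real.pi * n / ((M + 1 : ℕ) : ℝ)) ^ 2 =
        1 - Real.sin (Real.pi * n / ((M + 1 : ℕ) : ℝ)) ^ 2 := by linarith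
    rw [b4]
    ring
  have e7 : ((((⟨0, hM⟩ : Fin (M + 1 - 1)) : ℕ) : ℤ) - (((⟨0, hM⟩ : Fin (M + 1 - 1)) : ℕ) : ℤ)) = 0 := by
    simp
  have e8 : ((((⟨0, hM⟩ : Fin (M + 1 - 1)) : ℕ) : ℤ) +
      (((⟨0, hM⟩ : Fin (M + 1 - 1)) : ℕ) : ℤ) + 2) = 2 := by
    simp
  rw [e7, e8, e6, e5]
  field_simp

/-! ### estimates -/

lemma sum_mul_le {α : Type} (T : Finset α) (a b : α → ℝ) (ha : ∀ x, 0 ≤ a x) (hb : ∀ x, 0 ≤ b x) :
    ∑ x ∈ T, a x * b x ≤ (∑ x ∈ T, a x) * ∑ x ∈ T, b x := by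
  rw [Finset.sum_mul]
  refine Finset.sum_le_sum fun x hx => mul_le_mul_of_nonneg_left ?_ (ha x)
  exact Finset.single_le_sum (fun y _ => hb y) hx

lemma core (L n c : ℕ) (hL : 1 ≤ L) (h1 : n ≤ L) (h2 : L ≤ n + 1) (hnc : n + c = L + 1)
    (hc : 1 ≤ c) (f g : ℤ → ℝ) (pf : ∀ z, f (z + 2 * L) = f z) (pg : ∀ z, g (z + 2 * L) = g z)
    (Df Dg Vf σ : ℝ) (hDf : ∑ z ∈ Finset.Ico (-(L : ℤ)) L, |f z| ≤ Df)
    (hDg : ∑ z ∈ Finset.Ico (-(L : ℤ)) L, |g z| ≤ Dg)
    (hVf : ∀ z ∈ Finset.Ico (-(L : ℤ)) L, |(z : ℝ)| * |f z| ≤ Vf) (hσ : |σ| = 1) :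
    |∑ i : Fin n, ∑ j : Fin n, (f ((i : ℤ) - j) * g ((i : ℤ) - j) +
        σ * (f ((i : ℤ) - j) * g ((i : ℤ) + j + c)) - σ * (g ((i : ℤ) - j) * f ((i : ℤ) + j + c)) -
        f ((i : ℤ) + j + c) * g ((i : ℤ) + j + c)) -
      L * ∑ z ∈ Finset.Ico (-(L : ℤ)) L, f z * g z| ≤ 2 * (Vf * Dg) + 3 * (Df * Dg) := by
  have hDf0 : 0 ≤ Df := (Finset.sum_nonneg fun z _ => abs_nonneg (f z)).trans hDf
  have hDg0 : 0 ≤ Dg := (Finset.sum_nonneg fun z _ => abs_nonneg (g z)).trans hDg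
  have hVf0 : 0 ≤ Vf := by
    have := hVf 0 (Finset.mem_Ico.2 (by omega))
    simpa using this
  have paf : ∀ z, (fun z => |f z|) (z + 2 * L) = (fun z => |f z|) z := fun z => by
    simp only
    rw [pf]
  have pag : ∀ z, (fun z => |g z|) (z + 2 * L) = (fun z => |g z|) z := fun z => by
    simp only
    rw [pg]
  -- the products
  have P1 : ∑ z ∈ Finset.Ico (-(L : ℤ)) L, |f z| * |g z| ≤ Df * Dg :=
    (sum_mul_le _ _ _ (fun _ => abs_nonneg _) (fun _ => abs_nonneg _)).trans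
      (mul_le_mul hDf hDg (Finset.sum_nonneg fun z _ => abs_nonneg (g z)) hDf0)
  have P2 : ∑ z ∈ Finset.Ico (-(L : ℤ)) L, |(z : ℝ)| * (|f z| * |g z|) ≤ Vf * Dg := by
    calc ∑ z ∈ Finset.Ico (-(L : ℤ)) L, |(z : ℝ)| * (|f z| * |g z|) ≤
        ∑ z ∈ Finset.Ico (-(L : ℤ)) L, Vf * |g z| := by
          refine Finset.sum_le_sum fun z hz => ?_
          rw [← mul_assoc]
          exact mul_le_mul_of_nonneg_right (hVf z hz) (abs_nonneg _)
      _ = Vf * ∑ z ∈ Finset.Ico (-(L : ℤ)) L, |g z| := by rw [Finset.mul_sum]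
      _ ≤ Vf * Dg := mul_le_mul_of_nonneg_left hDg hVf0
  -- the four sums
  have S1 := diff_sum L n h1 h2 (fun z => f z * g z)
  have S1' : ∑ v ∈ Finset.Ico (-(L : ℤ)) L, (|(v : ℝ)| + 1) * |f v * g v| ≤
      Vf * Dg + Df * Dg := by
    have e : ∑ v ∈ Finset.Ico (-(L : ℤ)) L, (|(v : ℝ)| + 1) * |f v * g v| =
        ∑ z ∈ Finset.Ico (-(L : ℤ)) L, |(z : ℝ)| * (|f z| * |g z|) +
        ∑ z ∈ Finset.Ico (-(L : ℤ)) L, |f z| * |g z| := by
      rw [← Finset.sum_add_distrib]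
      refine Finset.sum_congr rfl fun z _ => ?_
      rw [abs_mul]
      ring
    rw [e]
    exact add_le_add P2 P1
  have S2 := mix_sum L n c h1 (by omega) (fun z => |f z|) (fun z => |g z|)
    (fun _ => abs_nonneg _) (fun _ => abs_nonneg _)
  rw [per_sum L hL _ pag] at S2
  have S2' : (∑ z ∈ Finset.Ico (-(L : ℤ)) L, |f z|) * ∑ z ∈ Finset.Ico (-(L : ℤ)) L, |g z| ≤
      Df * Dg := mul_le_mul hDf hDg (Finset.sum_nonneg fun z _ => abs_nonneg (g z)) hDf0
  have S3 := mix_sum L n c h1 (by omega) (fun z => |g z|) (fun z => |f z|)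
    (fun _ => abs_nonneg _) (fun _ => abs_nonneg _)
  rw [per_sum L hL _ paf] at S3
  have S4 := add_sum L n c hnc hc (fun z => |f z| * |g z|)
    (fun _ => mul_nonneg (abs_nonneg _) (abs_nonneg _)) (fun z => by
      rw [pf, pg])
  -- the decomposition
  have e1 : ∑ i : Fin n, ∑ j : Fin n, (f ((i : ℤ) - j) * g ((i : ℤ) - j) +
        σ * (f ((i : ℤ) - j) * g ((i : ℤ) + j + c)) - σ * (g ((i : ℤ) - j) * f ((i : ℤ) + j + c)) -
        f ((i : ℤ) + j + c) * g ((i : ℤ) + j + c)) =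
      (∑ i : Fin n, ∑ j : Fin n, f ((i : ℤ) - j) * g ((i : ℤ) - j)) +
      σ * (∑ i : Fin n, ∑ j : Fin n, f ((i : ℤ) - j) * g ((i : ℤ) + j + c)) -
      σ * (∑ i : Fin n, ∑ j : Fin n, g ((i : ℤ) - j) * f ((i : ℤ) + j + c)) -
      ∑ i : Fin n, ∑ j : Fin n, f ((i : ℤ) + j + c) * g ((i : ℤ) + j + c) := by
    simp only [Finset.mul_sum, ← Finset.sum_add_distrib, ← Finset.sum_sub_distrib]
  have a2 : |∑ i : Fin n, ∑ j : Fin n, f ((i : ℤ) - j) * g ((i : ℤ) + j + c)| ≤ Df * Dg := by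
    refine (Finset.abs_sum_le_sum_abs _ _).trans ((Finset.sum_le_sum fun i _ =>
      Finset.abs_sum_le_sum_abs _ _).trans (le_trans (le_of_eq ?_) (S2.trans S2')))
    refine Finset.sum_congr rfl fun i _ => Finset.sum_congr rfl fun j _ => ?_
    rw [abs_mul]
  have a3 : |∑ i : Fin n, ∑ j : Fin n, g ((i : ℤ) - j) * f ((i : ℤ) + j + c)| ≤ Df * Dg := by
    refine (Finset.abs_sum_le_sum_abs _ _).trans ((Finset.sum_le_sum fun i _ =>
      Finset.abs_sum_le_sum_abs _ _).trans (le_trans (le_of_eq ?_) (S3.trans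
        (le_trans (le_of_eq (mul_comm _ _)) S2'))))
    refine Finset.sum_congr rfl fun i _ => Finset.sum_congr rfl fun j _ => ?_
    rw [abs_mul]
  have a4 : |∑ i : Fin n, ∑ j : Fin n, f ((i : ℤ) + j + c) * g ((i : ℤ) + j + c)| ≤ Vf * Dg := by
    refine (Finset.abs_sum_le_sum_abs _ _).trans ((Finset.sum_le_sum fun i _ =>
      Finset.abs_sum_le_sum_abs _ _).trans (le_trans (le_of_eq ?_) (S4.trans P2)))
    refine Finset.sum_congr rfl fun i _ => Finset.sum_congr rfl fun j _ => ?_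
    rw [abs_mul]
  have a1 := S1.trans S1'
  have b2 : |σ * (∑ i : Fin n, ∑ j : Fin n, f ((i : ℤ) - j) * g ((i : ℤ) + j + c))| ≤ Df * Dg := by
    rw [abs_mul, hσ, one_mul]
    exact a2
  have b3 : |σ * (∑ i : Fin n, ∑ j : Fin n, g ((i : ℤ) - j) * f ((i : ℤ) + j + c))| ≤ Df * Dg := by
    rw [abs_mul, hσ, one_mul]
    exact a3
  rw [e1]
  rw [abs_le] at a1 b2 b3 a4 ⊢
  constructor <;> linarith [a1.1, a1.2, b2.1, b2.2, b3.1, b3.2, a4.1, a4.2]

/-! ### matrices -/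

lemma km_mul {n : ℕ} (P : ℤ → ℝ) (i : Fin n) :
    ∑ k : Fin n, km n i k * P ((k : ℕ) : ℤ) = P (((i : ℕ) : ℤ) - 1) - P (((i : ℕ) : ℤ) + 1)
      - (if (i : ℕ) = 0 then P (-1) else 0) + (if (i : ℕ) + 1 = n then P ((n : ℕ) : ℤ) else 0) := by
  have e0 : ∀ k : Fin n, km n i k * P ((k : ℕ) : ℤ) =
      (if (i : ℕ) = k + 1 then P ((k : ℕ) : ℤ) else 0) -
      (if (k : ℕ) = i + 1 then P ((k : ℕ) : ℤ) else 0) := by
    intro k
    unfold km
    rw [Matrix.sub_apply, Matrix.transpose_apply]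
    unfold tm
    split_ifs <;> ring
  rw [Finset.sum_congr rfl fun k _ => e0 k, Finset.sum_sub_distrib]
  have e1 : ∑ k : Fin n, (if (i : ℕ) = k + 1 then P ((k : ℕ) : ℤ) else 0) =
      P (((i : ℕ) : ℤ) - 1) - (if (i : ℕ) = 0 then P (-1) else 0) := by
    by_cases hi : (i : ℕ) = 0
    · rw [if_pos hi, hi]
      rw [Finset.sum_eq_zero fun k _ => if_neg (by omega)]
      simp
    · rw [if_neg hi, sub_zero]
      have hlt : (i : ℕ) - 1 < n := by omega
      rw [Finset.sum_eq_single ⟨(i : ℕ) - 1, hlt⟩]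
      · rw [if_pos (by simp only; omega)]
        congr 1
        simp only
        omega
      · intro k _ hk
        refine if_neg fun h => hk (Fin.ext ?_)
        simp only
        omega
      · intro h
        exact absurd (Finset.mem_univ _) h
  have e2 : ∑ k : Fin n, (if (k : ℕ) = i + 1 then P ((k : ℕ) : ℤ) else 0) =
      P (((i : ℕ) : ℤ) + 1) - (if (i : ℕ) + 1 = n then P ((n : ℕ) : ℤ) else 0) := by
    have hi2 := i.2
    by_cases hi : (i : ℕ) + 1 = n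
    · rw [if_pos hi]
      rw [Finset.sum_eq_zero fun k _ => if_neg (by have := k.2; omega)]
      have : ((i : ℕ) : ℤ) + 1 = ((n : ℕ) : ℤ) := by omega
      rw [this, sub_self]
    · rw [if_neg hi, sub_zero]
      have hlt : (i : ℕ) + 1 < n := by omega
      rw [Finset.sum_eq_single ⟨(i : ℕ) + 1, hlt⟩]
      · rw [if_pos rfl]
        congr 1
      · intro k _ hk
        exact if_neg fun h => hk (Fin.ext h)
      · intro h
        exact absurd (Finset.mem_univ _) h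
  rw [e1, e2]
  ring

lemma bb_eq {n : ℕ} (A : Matrix (Fin n) (Fin n) ℝ) (t s : ℝ) :
    bb A t s = -∑ i : Fin n, ∑ j : Fin n, (km n * hk A t) i j * (km n * hk A s) j i := by
  unfold bb
  rw [Matrix.mul_assoc (km n * hk A t) (km n) (hk A s)]
  rfl

lemma U_DD (hR : S_R) (L : ℕ) (hL : 2 ≤ L) (t : ℝ) (i j : Fin (L - 1)) :
    (km (L - 1) * hk (lDD L) t) i j =
      -(dd L t (((i : ℕ) : ℤ) - ((j : ℕ) : ℤ)) - dd L t (((i : ℕ) : ℤ) + ((j : ℕ) : ℤ) + 2)) := by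
  rw [Matrix.mul_apply]
  obtain ⟨P, hP⟩ : ∃ P : ℤ → ℝ, P = fun z : ℤ =>
    rr L t (z - ((j : ℕ) : ℤ)) - rr L t (z + ((j : ℕ) : ℤ) + 2) := ⟨_, rfl⟩
  have e0 : ∀ k : Fin (L - 1), km (L - 1) i k * hk (lDD L) t k j =
      km (L - 1) i k * P ((k : ℕ) : ℤ) := by
    intro k
    rw [(hR L hL t).1, hP]
  have key := km_mul P i
  rw [Finset.sum_congr rfl fun k _ => e0 k, key, hP]
  have e1 : rr L t (-1 - ((j : ℕ) : ℤ)) = rr L t (-1 + ((j : ℕ) : ℤ) + 2) := by
    rw [← rr_neg]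
    congr 1
    ring
  have e2 : rr L t (((L - 1 : ℕ) : ℤ) - ((j : ℕ) : ℤ)) =
      rr L t (((L - 1 : ℕ) : ℤ) + ((j : ℕ) : ℤ) + 2) := by
    have g1 := rr_neg L t (((L - 1 : ℕ) : ℤ) + ((j : ℕ) : ℤ) + 2)
    have g2 := rr_per L (by omega) t (-(((L - 1 : ℕ) : ℤ) + ((j : ℕ) : ℤ) + 2))
    have g3 : -(((L - 1 : ℕ) : ℤ) + ((j : ℕ) : ℤ) + 2) + 2 * L =
        ((L - 1 : ℕ) : ℤ) - ((j : ℕ) : ℤ) := by omega
    rw [g3] at g2
    rw [g2, g1]
  simp only
  rw [e1, e2, sub_self, sub_self, ite_self, ite_self, sub_zero, add_zero]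
  unfold dd
  have a1 : ((i : ℕ) : ℤ) - 1 - ((j : ℕ) : ℤ) = ((i : ℕ) : ℤ) - ((j : ℕ) : ℤ) - 1 := by ring
  have a2 : ((i : ℕ) : ℤ) + 1 - ((j : ℕ) : ℤ) = ((i : ℕ) : ℤ) - ((j : ℕ) : ℤ) + 1 := by ring
  have a3 : ((i : ℕ) : ℤ) - 1 + ((j : ℕ) : ℤ) + 2 = ((i : ℕ) : ℤ) + ((j : ℕ) : ℤ) + 2 - 1 := by ring
  have a4 : ((i : ℕ) : ℤ) + 1 + ((j : ℕ) : ℤ) + 2 = ((i : ℕ) : ℤ) + ((j : ℕ) : ℤ) + 2 + 1 := by ring
  rw [a1, a2, a3, a4]
  ring

/-- the ends -/
def ep (L : ℕ) (i : Fin L) : ℝ := (if (i : ℕ) = 0 then 1 else 0) + (if (i : ℕ) + 1 = L then 1 else 0)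

lemma ep_nonneg (L : ℕ) (i : Fin L) : 0 ≤ ep L i := by
  unfold ep
  split_ifs <;> norm_num

lemma ep_sum (L : ℕ) : ∑ i : Fin L, ep L i ≤ 2 := by
  unfold ep
  rw [Finset.sum_add_distrib, Finset.sum_boole, Finset.sum_boole]
  have h1 : (Finset.univ.filter fun i : Fin L => (i : ℕ) = 0).card ≤ 1 := by
    refine Finset.card_le_one.2 fun a ha b hb => ?_
    rw [Finset.mem_filter] at ha hb
    exact Fin.ext (ha.2.trans hb.2.symm)
  have h2 : (Finset.univ.filter fun i : Fin L => (i : ℕ) + 1 = L).card ≤ 1 := by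
    refine Finset.card_le_one.2 fun a ha b hb => ?_
    rw [Finset.mem_filter] at ha hb
    have := ha.2.trans hb.2.symm
    exact Fin.ext (by omega)
  have h3 : ((Finset.univ.filter fun i : Fin L => (i : ℕ) = 0).card : ℝ) ≤ 1 := by exact_mod_cast h1
  have h4 : ((Finset.univ.filter fun i : Fin L => (i : ℕ) + 1 = L).card : ℝ) ≤ 1 := by
    exact_mod_cast h2
  linarith

lemma U_NN (hR : S_R) (L : ℕ) (hL : 2 ≤ L) (t R : ℝ) (hpos : ∀ z, 0 ≤ rr L t z)
    (hR1 : ∀ z, rr L t z ≤ R) (i j : Fin L) :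
    |(km L * hk (lNN L) t) i j +
      (dd L t (((i : ℕ) : ℤ) - ((j : ℕ) : ℤ)) + dd L t (((i : ℕ) : ℤ) + ((j : ℕ) : ℤ) + 1))| ≤
      ep L i * (2 * R) := by
  rw [Matrix.mul_apply]
  obtain ⟨P, hP⟩ : ∃ P : ℤ → ℝ, P = fun z : ℤ =>
    rr L t (z - ((j : ℕ) : ℤ)) + rr L t (z + ((j : ℕ) : ℤ) + 1) := ⟨_, rfl⟩
  have e0 : ∀ k : Fin L, km L i k * hk (lNN L) t k j = km L i k * P ((k : ℕ) : ℤ) := by
    intro k
    rw [(hR L hL t).2, hP]
  have key := km_mul P i
  rw [Finset.sum_congr rfl fun k _ => e0 k, key, hP]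
  simp only
  unfold dd
  have a1 : ((i : ℕ) : ℤ) - 1 - ((j : ℕ) : ℤ) = ((i : ℕ) : ℤ) - ((j : ℕ) : ℤ) - 1 := by ring
  have a2 : ((i : ℕ) : ℤ) + 1 - ((j : ℕ) : ℤ) = ((i : ℕ) : ℤ) - ((j : ℕ) : ℤ) + 1 := by ring
  have a3 : ((i : ℕ) : ℤ) - 1 + ((j : ℕ) : ℤ) + 1 = ((i : ℕ) : ℤ) + ((j : ℕ) : ℤ) + 1 - 1 := by ring
  have a4 : ((i : ℕ) : ℤ) + 1 + ((j : ℕ) : ℤ) + 1 = ((i : ℕ) : ℤ) + ((j : ℕ) : ℤ) + 1 + 1 := by ring
  rw [a1, a2, a3, a4]
  have b1 := hpos (-1 - ((j : ℕ) : ℤ))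
  have b2 := hpos (-1 + ((j : ℕ) : ℤ) + 1)
  have b3 := hR1 (-1 - ((j : ℕ) : ℤ))
  have b4 := hR1 (-1 + ((j : ℕ) : ℤ) + 1)
  have b5 := hpos (((L : ℕ) : ℤ) - ((j : ℕ) : ℤ))
  have b6 := hpos (((L : ℕ) : ℤ) + ((j : ℕ) : ℤ) + 1)
  have b7 := hR1 (((L : ℕ) : ℤ) - ((j : ℕ) : ℤ))
  have b8 := hR1 (((L : ℕ) : ℤ) + ((j : ℕ) : ℤ) + 1)
  unfold ep
  rw [abs_le]
  split_ifs <;> constructor <;> linarith

/-- row sums -/
lemma row_sum (L : ℕ) (hL : 1 ≤ L) (f : ℤ → ℝ) (pf : ∀ z, f (z + 2 * L) = f z) (hf : ∀ z, 0 ≤ f z)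
    (i : Fin L) :
    ∑ j : Fin L, (f (((i : ℕ) : ℤ) - ((j : ℕ) : ℤ)) + f (((i : ℕ) : ℤ) + ((j : ℕ) : ℤ) + 1)) ≤
      2 * ∑ z ∈ Finset.Ico (-(L : ℤ)) L, f z := by
  classical
  rw [Finset.sum_add_distrib]
  have h1 : ∑ j : Fin L, f (((i : ℕ) : ℤ) - ((j : ℕ) : ℤ)) ≤ ∑ z ∈ Finset.Ico (-(L : ℤ)) L, f z := by
    refine sum_le_inj _ _ (fun j : Fin L => ((i : ℕ) : ℤ) - ((j : ℕ) : ℤ)) f ?_ ?_ hf
    · intro j _ j' _ hj
      simp only at hj
      exact Fin.ext (by omega)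
    · intro j _
      have := i.2
      have := j.2
      rw [Finset.mem_Ico]
      omega
  have h2 : ∑ j : Fin L, f (((i : ℕ) : ℤ) + ((j : ℕ) : ℤ) + 1) ≤
      ∑ z ∈ Finset.Ico (0 : ℤ) (2 * L), f z := by
    refine sum_le_inj _ _ (fun j : Fin L => ((i : ℕ) : ℤ) + ((j : ℕ) : ℤ) + 1) f ?_ ?_ hf
    · intro j _ j' _ hj
      simp only at hj
      exact Fin.ext (by omega)
    · intro j _
      have := i.2
      have := j.2
      rw [Finset.mem_Ico]
      omega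
  rw [per_sum L hL f pf] at h2
  linarith

lemma sqrt_prod {t s : ℝ} (ht : 0 ≤ t) (hs : 0 ≤ s) :
    1 / (1 + (t + s)) ≤ 1 / Real.sqrt (1 + t) * (1 / Real.sqrt (1 + s)) := by
  rw [one_div_mul_one_div, ← Real.sqrt_mul (by positivity)]
  refine one_div_le_one_div_of_le (by positivity) ?_
  rw [Real.sqrt_le_left (by positivity)]
  nlinarith

/-- the second sum of the corrections -/
lemma corr (L : ℕ) (hL : 1 ≤ L) (f g : ℤ → ℝ) (pf : ∀ z, f (z + 2 * L) = f z)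
    (pg : ∀ z, g (z + 2 * L) = g z) (hf : ∀ z, 0 ≤ f z) (hg : ∀ z, 0 ≤ g z) (Df Dg Rf Rg : ℝ)
    (hDf : ∑ z ∈ Finset.Ico (-(L : ℤ)) L, f z ≤ Df) (hDg : ∑ z ∈ Finset.Ico (-(L : ℤ)) L, g z ≤ Dg)
    (hRf : 0 ≤ Rf) (hRg : 0 ≤ Rg) (fe : ∀ z, f (-z) = f z) :
    ∑ i : Fin L, ∑ j : Fin L,
      ((f (((i : ℕ) : ℤ) - ((j : ℕ) : ℤ)) + f (((i : ℕ) : ℤ) + ((j : ℕ) : ℤ) + 1)) * (ep L j * Rg) +
        (ep L i * Rf) * (g (((i : ℕ) : ℤ) - ((j : ℕ) : ℤ)) + g (((i : ℕ) : ℤ) + ((j : ℕ) : ℤ) + 1)) +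
        (ep L i * Rf) * (ep L j * Rg)) ≤ 4 * (Df * Rg) + 4 * (Rf * Dg) + 4 * (Rf * Rg) := by
  have hDf0 : 0 ≤ Df := (Finset.sum_nonneg fun z _ => hf z).trans hDf
  have hDg0 : 0 ≤ Dg := (Finset.sum_nonneg fun z _ => hg z).trans hDg
  have he := ep_sum L
  have he0 : 0 ≤ ∑ i : Fin L, ep L i := Finset.sum_nonneg fun i _ => ep_nonneg L i
  simp only [Finset.sum_add_distrib]
  have s1 : ∑ i : Fin L, ∑ j : Fin L,
      (f (((i : ℕ) : ℤ) - ((j : ℕ) : ℤ)) + f (((i : ℕ) : ℤ) + ((j : ℕ) : ℤ) + 1)) *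
        (ep L j * Rg) ≤ 4 * (Df * Rg) := by
    rw [Finset.sum_comm]
    have r : ∀ j ∈ (Finset.univ : Finset (Fin L)), ∑ i : Fin L,
        (f (((i : ℕ) : ℤ) - ((j : ℕ) : ℤ)) + f (((i : ℕ) : ℤ) + ((j : ℕ) : ℤ) + 1)) *
        (ep L j * Rg) ≤ (2 * Df * Rg) * ep L j := by
      intro j _
      rw [← Finset.sum_mul]
      have r1 := row_sum L hL f pf hf j
      have r2 : ∑ i : Fin L,
          (f (((i : ℕ) : ℤ) - ((j : ℕ) : ℤ)) + f (((i : ℕ) : ℤ) + ((j : ℕ) : ℤ) + 1)) ≤ 2 * Df := by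
        refine le_trans (le_of_eq ?_) (r1.trans (mul_le_mul_of_nonneg_left hDf (by norm_num)))
        refine Finset.sum_congr rfl fun i _ => ?_
        congr 1
        · rw [← fe]
          congr 1
          ring
        · congr 1
          ring
      have r3 : 0 ≤ ep L j * Rg := mul_nonneg (ep_nonneg L j) hRg
      calc _ ≤ 2 * Df * (ep L j * Rg) := mul_le_mul_of_nonneg_right r2 r3
        _ = _ := by ring
    refine (Finset.sum_le_sum r).trans ?_
    rw [← Finset.mul_sum]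
    calc 2 * Df * Rg * ∑ i : Fin L, ep L i ≤ 2 * Df * Rg * 2 :=
          mul_le_mul_of_nonneg_left he (by positivity)
      _ = _ := by ring
  have s2 : ∑ i : Fin L, ∑ j : Fin L, (ep L i * Rf) *
      (g (((i : ℕ) : ℤ) - ((j : ℕ) : ℤ)) + g (((i : ℕ) : ℤ) + ((j : ℕ) : ℤ) + 1)) ≤
        4 * (Rf * Dg) := by
    have r : ∀ i ∈ (Finset.univ : Finset (Fin L)), ∑ j : Fin L, (ep L i * Rf) *
        (g (((i : ℕ) : ℤ) - ((j : ℕ) : ℤ)) + g (((i : ℕ) : ℤ) + ((j : ℕ) : ℤ) + 1)) ≤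
        (2 * Rf * Dg) * ep L i := by
      intro i _
      rw [← Finset.mul_sum]
      have r1 := (row_sum L hL g pg hg i).trans (mul_le_mul_of_nonneg_left hDg (by norm_num))
      have r3 : 0 ≤ ep L i * Rf := mul_nonneg (ep_nonneg L i) hRf
      calc _ ≤ ep L i * Rf * (2 * Dg) := mul_le_mul_of_nonneg_left r1 r3
        _ = _ := by ring
    refine (Finset.sum_le_sum r).trans ?_
    rw [← Finset.mul_sum]
    calc 2 * Rf * Dg * ∑ i : Fin L, ep L i ≤ 2 * Rf * Dg * 2 :=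
          mul_le_mul_of_nonneg_left he (by positivity)
      _ = _ := by ring
  have s3 : ∑ i : Fin L, ∑ j : Fin L, (ep L i * Rf) * (ep L j * Rg) ≤ 4 * (Rf * Rg) := by
    have e : ∑ i : Fin L, ∑ j : Fin L, (ep L i * Rf) * (ep L j * Rg) =
        (Rf * Rg) * ((∑ i : Fin L, ep L i) * ∑ j : Fin L, ep L j) := by
      rw [Finset.sum_mul_sum, Finset.mul_sum]
      refine Finset.sum_congr rfl fun i _ => ?_
      rw [Finset.mul_sum]
      exact Finset.sum_congr rfl fun j _ => by ring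
    rw [e]
    calc Rf * Rg * ((∑ i : Fin L, ep L i) * ∑ j : Fin L, ep L j) ≤ Rf * Rg * (2 * 2) :=
          mul_le_mul_of_nonneg_left (mul_le_mul he he he0 (by norm_num)) (by positivity)
      _ = _ := by ring
  linarith

end BL

open BL in
/-- Task AF-B -/
theorem tb (hR : S_R) (hP : S_P) (hV : S_V) (hD : S_D) : S_B := by
  obtain ⟨CV, hCV⟩ := hV
  obtain ⟨CD, hCD⟩ := hD
  obtain ⟨c0, hc0⟩ : ∃ c0 : ℝ, c0 = |CD| := ⟨_, rfl⟩
  obtain ⟨c1, hc1⟩ : ∃ c1 : ℝ, c1 = |CV| := ⟨_, rfl⟩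
  have hc00 : 0 ≤ c0 := by rw [hc0]; exact abs_nonneg _
  have hc10 : 0 ≤ c1 := by rw [hc1]; exact abs_nonneg _
  refine ⟨1 + (2 * (c1 * c0) + 3 * (c0 * c0) + 64) + (16 * ((1 + c0) * c0) + 16 * (1 + c0) ^ 2),
    by have : 0 ≤ c1 * c0 := by positivity
       have : 0 ≤ c0 * c0 := by positivity
       have : 0 ≤ (1 + c0) * c0 := by positivity
       have : 0 ≤ (1 + c0) ^ 2 := by positivity
       linarith, fun L hL t s ht hs => ?_⟩
  have hL1 : 1 ≤ L := by omega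
  have hL0 : (0 : ℝ) < L := by positivity
  -- the quantities
  obtain ⟨At, hAt⟩ : ∃ At : ℝ, At = 1 / Real.sqrt (1 + t) + 1 / L := ⟨_, rfl⟩
  obtain ⟨As, hAs⟩ : ∃ As : ℝ, As = 1 / Real.sqrt (1 + s) + 1 / L := ⟨_, rfl⟩
  have hqt : 0 < 1 / Real.sqrt (1 + t) := by positivity
  have hqs : 0 < 1 / Real.sqrt (1 + s) := by positivity
  have hL0' : 0 < 1 / (L : ℝ) := by positivity
  have hAt0 : 0 < At := by rw [hAt]; positivity
  have hAs0 : 0 < As := by rw [hAs]; positivity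
  have bnd : ∀ u : ℝ, 0 ≤ u → ∀ A : ℝ, A = 1 / Real.sqrt (1 + u) + 1 / L →
      (∑ z ∈ Finset.Ico (-(L : ℤ)) L, |dd L u z| ≤ c0 * A) ∧
      (∀ z ∈ Finset.Ico (-(L : ℤ)) L, |(z : ℝ)| * |dd L u z| ≤ c1 * A) ∧
      (∀ z, 0 ≤ rr L u z) ∧ (∀ z, rr L u z ≤ (1 + c0) * A) := by
    intro u hu A hA
    have hq : 0 < 1 / Real.sqrt (1 + u) := by positivity
    have hqA : 1 / Real.sqrt (1 + u) ≤ A := by rw [hA]; linarith
    have hLA : 1 / (L : ℝ) ≤ A := by rw [hA]; linarith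
    have d1 : ∑ z ∈ Finset.Ico (-(L : ℤ)) L, |dd L u z| ≤ c0 * A := by
      refine (hCD L hL u hu).trans ?_
      rw [div_eq_mul_one_div]
      calc CD * (1 / Real.sqrt (1 + u)) ≤ c0 * (1 / Real.sqrt (1 + u)) :=
            mul_le_mul_of_nonneg_right (by rw [hc0]; exact le_abs_self _) hq.le
        _ ≤ c0 * A := mul_le_mul_of_nonneg_left hqA hc00
    obtain ⟨p1, p2, -⟩ := hP L hL u hu
    refine ⟨d1, fun z hz => ?_, fun z => (p1 z).1, fun z => ?_⟩
    · rw [Finset.mem_Ico] at hz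
      refine (hCV L hL u hu z (by rw [abs_le]; omega)).2.trans ?_
      rw [div_eq_mul_one_div]
      calc CV * (1 / Real.sqrt (1 + u)) ≤ c1 * (1 / Real.sqrt (1 + u)) :=
            mul_le_mul_of_nonneg_right (by rw [hc1]; exact le_abs_self _) hq.le
        _ ≤ c1 * A := mul_le_mul_of_nonneg_left hqA hc10
    · have h1 := rr_le L hL u (fun z => (p1 z).1) p2 z
      have h2 : (1 + c0) * A = A + c0 * A := by ring
      rw [h2]
      linarith
  obtain ⟨t1, t2, t3, t4⟩ := bnd t ht At hAt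
  obtain ⟨s1, s2, s3, s4⟩ := bnd s hs As hAs
  -- the integral
  have hint : |L * ∑ z ∈ Finset.Ico (-(L : ℤ)) L, dd L t z * dd L s z - L * ww (t + s)| ≤
      64 * (At * As) := by
    obtain ⟨V, hV1, hV2⟩ := FF_var (t + s) (by linarith)
    have h1 := riem (FF (t + s)) V L hL1 (FF_cont _) hV1
    rw [main_sum hR L hL]
    have h2 : L * ww (t + s) =
        L * (1 / Real.pi * ∫ x in (0 : ℝ)..Real.pi, FF (t + s) x) := rfl
    rw [h2]
    refine (h1.trans hV2).trans ?_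
    rw [div_eq_mul_one_div]
    refine mul_le_mul_of_nonneg_left ((sqrt_prod ht hs).trans ?_) (by norm_num)
    refine mul_le_mul ?_ ?_ hqs.le hAt0.le
    · rw [hAt]; linarith
    · rw [hAs]; linarith
  have hfin : 2 * (c1 * At * (c0 * As)) + 3 * (c0 * At * (c0 * As)) + 64 * (At * As) =
      (2 * (c1 * c0) + 3 * (c0 * c0) + 64) * (At * As) := by ring
  have hAA : 0 < At * As := mul_pos hAt0 hAs0
  rw [← hAt, ← hAs]
  constructor
  · -- DD
    have hcore := core L (L - 1) 2 hL1 (by omega) (by omega) (by omega) (by norm_num)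
      (dd L t) (dd L s) (dd_per L hL1 t) (dd_per L hL1 s) (c0 * At) (c0 * As) (c1 * At) 1
      t1 s1 t2 (by norm_num)
    have e : bb (lDD L) t s = ∑ i : Fin (L - 1), ∑ j : Fin (L - 1),
        (dd L t ((i : ℤ) - j) * dd L s ((i : ℤ) - j) +
        1 * (dd L t ((i : ℤ) - j) * dd L s ((i : ℤ) + j + (2 : ℕ))) -
        1 * (dd L s ((i : ℤ) - j) * dd L t ((i : ℤ) + j + (2 : ℕ))) -
        dd L t ((i : ℤ) + j + (2 : ℕ)) * dd L s ((i : ℤ) + j + (2 : ℕ))) := by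
      rw [bb_eq, ← Finset.sum_neg_distrib]
      refine Finset.sum_congr rfl fun i _ => ?_
      rw [← Finset.sum_neg_distrib]
      refine Finset.sum_congr rfl fun j _ => ?_
      rw [U_DD hR L hL t i j, U_DD hR L hL s j i]
      have a1 : ((j : ℕ) : ℤ) - ((i : ℕ) : ℤ) = -(((i : ℕ) : ℤ) - ((j : ℕ) : ℤ)) := by ring
      have a2 : ((j : ℕ) : ℤ) + ((i : ℕ) : ℤ) + 2 = ((i : ℕ) : ℤ) + ((j : ℕ) : ℤ) + 2 := by ring
      rw [a1, a2, dd_neg]
      push_cast
      ring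
    rw [← e] at hcore
    have h5 := abs_sub_le (bb (lDD L) t s)
      (L * ∑ z ∈ Finset.Ico (-(L : ℤ)) L, dd L t z * dd L s z) (L * ww (t + s))
    have h6 : 0 ≤ (1 + (16 * ((1 + c0) * c0) + 16 * (1 + c0) ^ 2)) * (At * As) := by positivity
    have h7 : (1 + (2 * (c1 * c0) + 3 * (c0 * c0) + 64) +
        (16 * ((1 + c0) * c0) + 16 * (1 + c0) ^ 2)) * At * As =
        (2 * (c1 * c0) + 3 * (c0 * c0) + 64) * (At * As) +
        (1 + (16 * ((1 + c0) * c0) + 16 * (1 + c0) ^ 2)) * (At * As) := by ring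
    rw [h7]
    linarith
  · -- NN
    have hcore := core L L 1 hL1 (by omega) (by omega) (by omega) (by norm_num)
      (dd L t) (dd L s) (dd_per L hL1 t) (dd_per L hL1 s) (c0 * At) (c0 * As) (c1 * At) (-1)
      t1 s1 t2 (by norm_num)
    have hcorr := corr L hL1 (fun z => |dd L t z|) (fun z => |dd L s z|)
      (fun z => by rw [dd_per L hL1]) (fun z => by rw [dd_per L hL1])
      (fun z => abs_nonneg _) (fun z => abs_nonneg _) (c0 * At) (c0 * As)
      (2 * ((1 + c0) * At)) (2 * ((1 + c0) * As)) t1 s1 (by positivity) (by positivity)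
      (fun z => by rw [dd_neg, abs_neg])
    have e : |bb (lNN L) t s - ∑ i : Fin L, ∑ j : Fin L,
        (dd L t ((i : ℤ) - j) * dd L s ((i : ℤ) - j) +
        (-1) * (dd L t ((i : ℤ) - j) * dd L s ((i : ℤ) + j + (1 : ℕ))) -
        (-1) * (dd L s ((i : ℤ) - j) * dd L t ((i : ℤ) + j + (1 : ℕ))) -
        dd L t ((i : ℤ) + j + (1 : ℕ)) * dd L s ((i : ℤ) + j + (1 : ℕ)))| ≤
        4 * (c0 * At * (2 * ((1 + c0) * As))) + 4 * (2 * ((1 + c0) * At) * (c0 * As)) +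
        4 * (2 * ((1 + c0) * At) * (2 * ((1 + c0) * As))) := by
      refine le_trans ?_ hcorr
      rw [bb_eq, ← Finset.sum_neg_distrib, ← Finset.sum_sub_distrib]
      refine (Finset.abs_sum_le_sum_abs _ _).trans (Finset.sum_le_sum fun i _ => ?_)
      rw [← Finset.sum_neg_distrib, ← Finset.sum_sub_distrib]
      refine (Finset.abs_sum_le_sum_abs _ _).trans (Finset.sum_le_sum fun j _ => ?_)
      have u1 := U_NN hR L hL t _ t3 t4 i j
      have u2 := U_NN hR L hL s _ s3 s4 j i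
      have a1 : ((j : ℕ) : ℤ) - ((i : ℕ) : ℤ) = -(((i : ℕ) : ℤ) - ((j : ℕ) : ℤ)) := by ring
      have a2 : ((j : ℕ) : ℤ) + ((i : ℕ) : ℤ) + 1 = ((i : ℕ) : ℤ) + ((j : ℕ) : ℤ) + 1 := by ring
      rw [a1, a2, dd_neg] at u2
      push_cast
      obtain ⟨U, hU⟩ : ∃ U : ℝ, U = (km L * hk (lNN L) t) i j := ⟨_, rfl⟩
      obtain ⟨U', hU'⟩ : ∃ U' : ℝ, U' = (km L * hk (lNN L) s) j i := ⟨_, rfl⟩
      obtain ⟨x, hx⟩ : ∃ x : ℝ, x = dd L t (((i : ℕ) : ℤ) - ((j : ℕ) : ℤ)) := ⟨_, rfl⟩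
      obtain ⟨y, hy⟩ : ∃ y : ℝ, y = dd L t (((i : ℕ) : ℤ) + ((j : ℕ) : ℤ) + 1) := ⟨_, rfl⟩
      obtain ⟨x', hx'⟩ : ∃ x' : ℝ, x' = dd L s (((i : ℕ) : ℤ) - ((j : ℕ) : ℤ)) := ⟨_, rfl⟩
      obtain ⟨y', hy'⟩ : ∃ y' : ℝ, y' = dd L s (((i : ℕ) : ℤ) + ((j : ℕ) : ℤ) + 1) := ⟨_, rfl⟩
      rw [← hU, ← hx, ← hy] at u1
      rw [← hU', ← hx', ← hy'] at u2
      rw [← hU, ← hU', ← hx, ← hy, ← hx', ← hy']
      obtain ⟨e1, he1⟩ : ∃ e1 : ℝ, e1 = U + (x + y) := ⟨_, rfl⟩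
      obtain ⟨e2, he2⟩ : ∃ e2 : ℝ, e2 = U' + (-x' + y') := ⟨_, rfl⟩
      rw [← he1] at u1
      rw [← he2] at u2
      have hUe : U = e1 - (x + y) := by rw [he1]; ring
      have hUe' : U' = e2 - (-x' + y') := by rw [he2]; ring
      rw [hUe, hUe']
      have k1 : -((e1 - (x + y)) * (e2 - (-x' + y'))) - (x * x' + -1 * (x * y') - -1 * (x' * y) - y * y') =
          (x + y) * e2 + e1 * (-x' + y') - e1 * e2 := by ring
      rw [k1]
      have k2 : |(x + y) * e2| ≤ (|x| + |y|) * (ep L j * (2 * ((1 + c0) * As))) := by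
        rw [abs_mul]
        exact mul_le_mul (abs_add_le x y) u2 (abs_nonneg _) (by positivity)
      have k3 : |e1 * (-x' + y')| ≤ (ep L i * (2 * ((1 + c0) * At))) * (|x'| + |y'|) := by
        rw [abs_mul]
        refine mul_le_mul u1 ?_ (abs_nonneg _) (mul_nonneg (ep_nonneg L i) (by positivity))
        have := abs_add_le (-x') y'
        rwa [abs_neg] at this
      have k4 : |e1 * e2| ≤ (ep L i * (2 * ((1 + c0) * At))) * (ep L j * (2 * ((1 + c0) * As))) := by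
        rw [abs_mul]
        exact mul_le_mul u1 u2 (abs_nonneg _) (mul_nonneg (ep_nonneg L i) (by positivity))
      rw [abs_le] at k2 k3 k4 ⊢
      constructor <;> linarith [k2.1, k2.2, k3.1, k3.2, k4.1, k4.2]
    have h4 := abs_sub_le (bb (lNN L) t s) (∑ i : Fin L, ∑ j : Fin L,
        (dd L t ((i : ℤ) - j) * dd L s ((i : ℤ) - j) +
        (-1) * (dd L t ((i : ℤ) - j) * dd L s ((i : ℤ) + j + (1 : ℕ))) -
        (-1) * (dd L s ((i : ℤ) - j) * dd L t ((i : ℤ) + j + (1 : ℕ))) -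
        dd L t ((i : ℤ) + j + (1 : ℕ)) * dd L s ((i : ℤ) + j + (1 : ℕ))))
        (L * ∑ z ∈ Finset.Ico (-(L : ℤ)) L, dd L t z * dd L s z)
    have h5 := abs_sub_le (bb (lNN L) t s)
      (L * ∑ z ∈ Finset.Ico (-(L : ℤ)) L, dd L t z * dd L s z) (L * ww (t + s))
    have h7 : (1 + (2 * (c1 * c0) + 3 * (c0 * c0) + 64) +
        (16 * ((1 + c0) * c0) + 16 * (1 + c0) ^ 2)) * At * As =
        (2 * (c1 * c0) + 3 * (c0 * c0) + 64) * (At * As) +
        (4 * (c0 * At * (2 * ((1 + c0) * As))) + 4 * (2 * ((1 + c0) * At) * (c0 * As)) +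
        4 * (2 * ((1 + c0) * At) * (2 * ((1 + c0) * As)))) + At * As := by ring
    rw [h7]
    linarith

end

end Pool.Agent.H105.AF
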